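import Pool.Agent.E8helper15.FT.Stm

/-! Project FT (MP_c59389_nt), piece DOWN. -/

set_option autoImplicit false

namespace Pool.Agent.E8helper77.FT

open NumberField IsDedekindDomain
open Pool.Agent.E8helper15.FT
open Pool.Agent.TH876.FH (faltings IsPeriod GoodAt badNorm HjS LhS)

theorem t_DOWN (hj : HjS) (lh : LhS) (h1 : S_LB) (h2 : S_PER) : S_DOWN := by
  intro K _ _ S hF ε hε
  set δ : ℝ := min 1 (ε / 5) with hδ
  have hδ0 : 0 < δ := lt_min one_pos (by positivity)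
  have hδ1 : δ ≤ 1 := min_le_left _ _
  have hδε : δ ≤ ε / 5 := min_le_right _ _
  obtain ⟨c1, hc1⟩ := lh K
  obtain ⟨c2, hc2⟩ := (hj K).1 δ hδ0
  obtain ⟨c3, hc3⟩ := hF δ hδ0
  obtain ⟨c4, hc4⟩ := h1 K
  refine ⟨2 * (1 + δ) * ((1 / 2 + δ) * c4 + c3) + (c1 + c2) / 6, fun l hl hl0 hl1 => ?_⟩
  obtain ⟨hΔ, hjl, hB, hR⟩ := hc4 l hl0 hl1
  obtain ⟨τ, hτ⟩ := h2 K ((leg l).c₄ ^ 3 / (leg l).Δ)
  have e1 := hc1 _ l hl0 hl1 hjl
  have e2 := hc2 _ τ hτ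
  have e3 := hc3 (leg l) ⟨l, hl, rfl⟩ hΔ τ hτ
  set h := Height.logHeight₁ l
  set H := Height.logHeight₁ ((leg l).c₄ ^ 3 / (leg l).Δ)
  set F := (Module.finrank ℚ K : ℝ) * faltings ((leg l).c₄ ^ 3 / (leg l).Δ) τ with hFdef
  set B := Real.log (badNorm (leg l))
  set R := Real.log (lrad l)
  have e2' : H ≤ (1 + δ) * (12 * F) + c2 := by
    rw [hFdef, ← mul_assoc 12]
    exact e2
  have e4 : F ≤ (1 / 2 + δ) * (R + c4) + c3 := by
    have : (1 / 2 + δ) * B ≤ (1 / 2 + δ) * (R + c4) :=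
      mul_le_mul_of_nonneg_left hB (by linarith)
    linarith
  have e5 : (1 + δ) * (12 * F) ≤ (1 + δ) * (12 * ((1 / 2 + δ) * (R + c4) + c3)) :=
    mul_le_mul_of_nonneg_left (by linarith) (by linarith)
  have e6 : (1 + δ) * (1 + 2 * δ) ≤ 1 + ε := by nlinarith
  have e7 : (1 + δ) * (1 + 2 * δ) * R ≤ (1 + ε) * R := mul_le_mul_of_nonneg_right e6 hR
  nlinarith [e1, e2', e5, e7]

end Pool.Agent.E8helper77.FT
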